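import Mathlib

set_option autoImplicit false

/-!
Definitions for MP_f89e7b_al: chain homotopic maps of exact triangles and
Verdier good maps of exact triangles, in the language of Mathlib.
-/

namespace Pool.Agent.Lib.MP_f89e7b_al

open CategoryTheory Category Limits Pretriangulated

universe v u

variable {C : Type u} [Category.{v} C] [Preadditive C] [HasZeroObject C] [HasShift C ℤ]
  [∀ n : ℤ, (shiftFunctor C n).Additive]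

/-- Maps of triangles `φ, ψ : (u, v, w) ⟶ (u', v', w')` are chain homotopic if there are
`k₁ : Y ⟶ X'`, `k₂ : Z ⟶ Y'`, `k₃ : ΣX ⟶ Z'` with `Σ(f - f₁ - k₁ u) = w' k₃`
(that is, `f - f₁ = k₁ u + Σ⁻¹(w' k₃)`), `g - g₁ = u' k₁ + k₂ v`, `h - h₁ = v' k₂ + k₃ w`. -/
def ChainHomotopic {T T' : Triangle C} (φ ψ : T ⟶ T') : Prop :=
  ∃ (k₁ : T.obj₂ ⟶ T'.obj₁) (k₂ : T.obj₃ ⟶ T'.obj₂) (k₃ : T.obj₁⟦(1 : ℤ)⟧ ⟶ T'.obj₃),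
    (φ.hom₁ - ψ.hom₁ - T.mor₁ ≫ k₁)⟦(1 : ℤ)⟧' = k₃ ≫ T'.mor₃ ∧
    φ.hom₂ - ψ.hom₂ = k₁ ≫ T'.mor₁ + T.mor₂ ≫ k₂ ∧
    φ.hom₃ - ψ.hom₃ = k₂ ≫ T'.mor₂ + T.mor₃ ≫ k₃

variable [Pretriangulated C]

/-- A choice of exact triangles on `gu`, `g` and `f`, for a map `(f, g, h)` of triangles. -/
structure Choice {T T' : Triangle C} (φ : T ⟶ T') where
  /-- the cone of `gu` -/
  A : C
  p : T'.obj₂ ⟶ A
  r : A ⟶ T.obj₁⟦(1 : ℤ)⟧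
  hA : Triangle.mk (T.mor₁ ≫ φ.hom₂) p r ∈ distTriang C
  /-- the cone of `g` -/
  Y'' : C
  g' : T'.obj₂ ⟶ Y''
  g'' : Y'' ⟶ T.obj₂⟦(1 : ℤ)⟧
  hY : Triangle.mk φ.hom₂ g' g'' ∈ distTriang C
  /-- the cone of `f` -/
  X'' : C
  f' : T'.obj₁ ⟶ X''
  f'' : X'' ⟶ T.obj₁⟦(1 : ℤ)⟧
  hX : Triangle.mk φ.hom₁ f' f'' ∈ distTriang C

/-- `φ = (f, g, h)` is Verdier good with respect to a choice of exact triangles on `gu`, `g`, `f`: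
there are octahedra (Mathlib's `Triangulated.Octahedron`) `O₁` for `X ⟶ Y ⟶ Y'` and `O₂` for
`X ⟶ X' ⟶ Y'`, both with the chosen triangle on `gu = u'f`, such that `h = β₂ α₁`,
where `α₁ = O₁.m₁ : Z ⟶ A` and `β₂ = O₂.m₃ : A ⟶ Z'`. -/
def VerdierGood {T T' : Triangle C} (hT : T ∈ distTriang C) (hT' : T' ∈ distTriang C)
    (φ : T ⟶ T') (c : Choice φ) : Prop :=
  ∃ (O₁ : Triangulated.Octahedron (u₁₂ := T.mor₁) (u₂₃ := φ.hom₂) (u₁₃ := T.mor₁ ≫ φ.hom₂) rfl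
      (v₁₂ := T.mor₂) (w₁₂ := T.mor₃) hT c.hY c.hA)
    (O₂ : Triangulated.Octahedron (u₁₂ := φ.hom₁) (u₂₃ := T'.mor₁) (u₁₃ := T.mor₁ ≫ φ.hom₂)
      φ.comm₁.symm c.hX (v₂₃ := T'.mor₂) (w₂₃ := T'.mor₃) hT' c.hA),
    φ.hom₃ = O₁.m₁ ≫ O₂.m₃

end Pool.Agent.Lib.MP_f89e7b_al
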